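import Pool.Agent.H648.Q.Defs2
import Pool.Agent.H980.Q648.Tri

/-!
# Q648-TRIR: from pairs to triples with character, real case
-/

set_option autoImplicit false

namespace Pool.Agent.H670.Q648

open Finset
open Pool.Agent.H648.Q2
open Pool.Agent.H980.Q648
open Pool.Agent.W78.GA (Qd nm prim dt ip)
open Pool.Agent.W78.GS (Pm)
open Pool.Agent.W78.GT (Tr NT tri Qp)
open Pool.Agent.W78.GR (tp fd Un)

/-- a prime which divides the norm of a primitive element splits or ramifies -/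
lemma sq_of_dvd_nm {b m : ℤ} {A l : ℕ} (hl : l.Prime) (hlA : ¬ l ∣ A)
    {z : Qd (b * A) (m * A ^ 2)} (hz : prim z) (h : l ∣ nm z) :
    ∃ x : ZMod l, x * x = ((b ^ 2 - 4 * m : ℤ) : ZMod l) := by
  have := Fact.mk hl
  have h1 : (l : ℤ) ∣ z.re ^ 2 + (b * A) * z.re * z.im + (m * A ^ 2) * z.im ^ 2 := by
    unfold nm at h
    exact Int.natCast_dvd.2 h
  have hlA' : ((A : ℤ) : ZMod l) ≠ 0 := by
    intro h0
    have h2 := (ZMod.intCast_zmod_eq_zero_iff_dvd (A : ℤ) l).1 h0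
    exact hlA (by exact_mod_cast h2)
  have hy : ((z.im : ℤ) : ZMod l) ≠ 0 := by
    intro h0
    have h2 := (ZMod.intCast_zmod_eq_zero_iff_dvd z.im l).1 h0
    have hlp : Prime (l : ℤ) := Nat.prime_iff_prime_int.1 hl
    have h3 : (l : ℤ) ∣ z.re ^ 2 := by
      obtain ⟨w, hw⟩ := h2
      have h4 : z.re ^ 2 = (z.re ^ 2 + (b * A) * z.re * z.im + (m * A ^ 2) * z.im ^ 2) -
          (l : ℤ) * (b * A * z.re * w + m * A ^ 2 * z.im * w) := by
        have : z.im ^ 2 = z.im * (l * w) := by rw [← hw]; ring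
        rw [this, hw]
        ring
      rw [h4]
      exact dvd_sub h1 (dvd_mul_right _ _)
    have h4 : (l : ℤ) ∣ z.re := hlp.dvd_of_dvd_pow h3
    have h5 : (l : ℤ) ∣ (Int.gcd z.re z.im : ℤ) := Int.dvd_coe_gcd h4 h2
    unfold prim at hz
    rw [hz] at h5
    have : l ∣ 1 := by exact_mod_cast h5
    exact hl.one_lt.ne' (Nat.dvd_one.1 this)
  have h6 := (ZMod.intCast_zmod_eq_zero_iff_dvd _ l).2 h1
  push_cast at h6
  refine ⟨(2 * (z.re : ZMod l) + b * A * z.im) / (A * z.im), ?_⟩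
  have hA2 : ((A : ℕ) : ZMod l) ≠ 0 := by
    intro h0
    apply hlA'
    push_cast
    exact h0
  push_cast
  field_simp
  linear_combination 4 * h6

lemma pair_facts {t c : ℤ} (hD : 4 * c < t ^ 2) (u z z' : Qd t c) (hz : tp z) (hu : tp u)
    (hz' : tp z') (hdt : dt z (u * z') ≠ 0) :
    ∃ (E G : ℕ) (n k : ℤ) (d d' : ℕ), psi u (z, z') = ((E, G), ⟨k, (d, n, d')⟩) ∧
      1 ≤ E ∧ 1 ≤ G ∧ G ≤ E ^ 2 ∧ 1 ≤ d ∧ 1 ≤ d' ∧ d ≤ nm z ∧ d' ≤ nm (u * z') ∧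
      nm z = d * G ∧ ip z (u * z') = E * n ∧ dt z (u * z') = E * k ∧ Int.gcd n k = 1 ∧
      (d : ℤ) * d' = n ^ 2 + t * n * k + c * k ^ 2 ∧ d * d' * E ^ 2 = nm z * nm (u * z') := by
  have huz : tp (u * z') := Pool.Agent.W78.GR.tp_mul hD hu hz'
  have hP : 0 < nm z := Pool.Agent.W78.GR.nm_pos hD hz
  have hQ : 0 < nm (u * z') := Pool.Agent.W78.GR.nm_pos hD huz
  have hE : 0 < Int.gcd (ip z (u * z')) (dt z (u * z')) := Int.gcd_pos_of_ne_zero_right _ hdt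
  have hid := Pool.Agent.W78.GR.ip_dt z (u * z') hD hz huz
  obtain ⟨n, hn⟩ := Int.gcd_dvd_left (ip z (u * z')) (dt z (u * z'))
  obtain ⟨k, hk⟩ := Int.gcd_dvd_right (ip z (u * z')) (dt z (u * z'))
  have hco := Int.gcd_div_gcd_div_gcd hE
  set E := Int.gcd (ip z (u * z')) (dt z (u * z')) with hEdef
  have hE0 : (E : ℤ) ≠ 0 := by exact_mod_cast hE.ne'
  have e1 : ip z (u * z') / (E : ℤ) = n := by
    rw [hn]; exact Int.mul_ediv_cancel_left n hE0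
  have e2 : dt z (u * z') / (E : ℤ) = k := by
    rw [hk]; exact Int.mul_ediv_cancel_left k hE0
  rw [e1, e2] at hco
  have hid2 : (nm z : ℤ) * nm (u * z') = (E : ℤ) ^ 2 * (n ^ 2 + t * n * k + c * k ^ 2) := by
    rw [hid, hn, hk]; ring
  have hdvd : E ^ 2 ∣ nm z * nm (u * z') := by
    have : ((E ^ 2 : ℕ) : ℤ) ∣ ((nm z * nm (u * z') : ℕ) : ℤ) := by
      push_cast
      rw [hid2]
      exact Dvd.intro _ rfl
    exact_mod_cast this
  obtain ⟨s1, s2, s3, s4⟩ := split_nat hP hQ hE hdvd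
  refine ⟨E, Nat.gcd (nm z) (E ^ 2), n, k, nm z / Nat.gcd (nm z) (E ^ 2),
    nm (u * z') / (E ^ 2 / Nat.gcd (nm z) (E ^ 2)), ?_, hE, Nat.gcd_pos_of_pos_left _ hP,
    Nat.le_of_dvd (by positivity) (Nat.gcd_dvd_right _ _), s3, s4, Nat.div_le_self _ _,
    Nat.div_le_self _ _, s1.symm, hn, hk, hco, ?_, s2⟩
  · unfold psi
    simp only [← hEdef, e1, e2]
  · have h1 : (E : ℤ) ^ 2 * (((nm z / Nat.gcd (nm z) (E ^ 2) : ℕ) : ℤ) *
        ((nm (u * z') / (E ^ 2 / Nat.gcd (nm z) (E ^ 2)) : ℕ) : ℤ)) =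
        (E : ℤ) ^ 2 * (n ^ 2 + t * n * k + c * k ^ 2) := by
      rw [← hid2]
      have s2' := congrArg (Nat.cast (R := ℤ)) s2
      push_cast at s2' ⊢
      linear_combination s2'
    exact mul_left_cancel₀ (pow_ne_zero 2 hE0) h1

/-- the first coordinate of `star z * w` modulo `A` -/
lemma ip_mod {b m : ℤ} {A : ℕ} (z w : Qd (b * A) (m * A ^ 2)) :
    (A : ℤ) ∣ ip z w - z.re * w.re := by
  refine ⟨b * z.im * w.re + m * A * z.im * w.im, ?_⟩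
  unfold ip
  ring

lemma two_ip {t c : ℤ} (hd : 4 * c < t ^ 2) {z w : Qd t c} (hz : tp z) (hw : tp w) :
    0 < 2 * ip z w + t * dt z w := by
  have h1 : tp (star z * w) := Pool.Agent.W78.GR.tp_mul hd (Pool.Agent.W78.GR.tp_star hz) hw
  have h2 := Pool.Agent.W78.GR.s1_add_s2 (star z * w)
  have h3 : 0 < 2 * ((star z * w).re : ℝ) + t * ((star z * w).im : ℝ) := by
    rw [← h2]
    exact add_pos h1.1 h1.2
  rw [Pool.Agent.W78.GA.star_mul_eq] at h3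
  exact_mod_cast h3

/-- a number dividing `ip` and `dt` which is prime to `A` has character `1` -/
lemma chi_E (hchi : S_CHI) {b m : ℤ} {A : ℕ} (hD : 4 * m < b ^ 2) (hA : 1 ≤ A)
    (hDA : 4 * (b ^ 2 - 4 * m) ∣ (A : ℤ)) (hDr : 4 * (m * (A : ℤ) ^ 2) < (b * A) ^ 2)
    {u z z' : Qd (b * A) (m * A ^ 2)} (hz : tp z) (hu : tp u) (hz' : tp z')
    (pz : prim z) (pu : prim u) (pz' : prim z') {E : ℕ} (hE : Nat.Coprime E A)
    (h1 : (E : ℤ) ∣ ip z (u * z')) (h2 : (E : ℤ) ∣ dt z (u * z')) :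
    chi (b ^ 2 - 4 * m) A E = 1 := by
  have hD0 : b ^ 2 - 4 * m ≠ 0 := by omega
  refine (hchi (b ^ 2 - 4 * m) A hD0 hA hDA).2.2 E hE ?_
  intro l hl hlE
  have hlA : ¬ l ∣ A := by
    intro h3
    have h4 : l ∣ Nat.gcd E A := Nat.dvd_gcd hlE h3
    rw [hE] at h4
    exact hl.one_lt.ne' (Nat.dvd_one.1 h4)
  have hid := Pool.Agent.W78.GR.ip_dt z (u * z') hDr hz (Pool.Agent.W78.GR.tp_mul hDr hu hz')
  have h3 : (l : ℤ) ∣ ip z (u * z') := (Int.natCast_dvd_natCast.2 hlE).trans h1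
  have h4 : (l : ℤ) ∣ dt z (u * z') := (Int.natCast_dvd_natCast.2 hlE).trans h2
  have h5 : (l : ℤ) ∣ (nm z : ℤ) * nm (u * z') := by
    rw [hid]
    refine dvd_add (dvd_add ?_ ?_) ?_
    · exact dvd_pow h3 (by norm_num)
    · exact dvd_mul_of_dvd_right h4 _
    · exact dvd_mul_of_dvd_right (dvd_pow h4 (by norm_num)) _
  have h6 : l ∣ nm z * (nm u * nm z') := by
    rw [← Pool.Agent.W78.GA.nm_mul u z']
    exact_mod_cast h5
  rcases (Nat.Prime.dvd_mul hl).1 h6 with h7 | h7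
  · exact sq_of_dvd_nm hl hlA pz h7
  rcases (Nat.Prime.dvd_mul hl).1 h7 with h8 | h8
  · exact sq_of_dvd_nm hl hlA pu h8
  · exact sq_of_dvd_nm hl hlA pz' h8

/-- the quotient of `ip` has character `1` -/
lemma chi_n (hchi : S_CHI) {b m : ℤ} {A : ℕ} (hD : 4 * m < b ^ 2) (hA : 1 ≤ A)
    (hDA : 4 * (b ^ 2 - 4 * m) ∣ (A : ℤ)) (hDr : 4 * (m * (A : ℤ) ^ 2) < (b * A) ^ 2)
    {u z z' : Qd (b * A) (m * A ^ 2)} (hz : tp z) (hu : tp u) (hz' : tp z')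
    (pz : prim z) (pu : prim u) (pz' : prim z') (cz : Int.gcd z.re A = 1)
    (hcop : IsCoprime (ip z (u * z')) (A : ℤ))
    (hχ : chi (b ^ 2 - 4 * m) A z.re = chi (b ^ 2 - 4 * m) A (u * z').re)
    {E : ℕ} {n k : ℤ} (h1 : ip z (u * z') = E * n) (h2 : dt z (u * z') = E * k) :
    chi (b ^ 2 - 4 * m) A n = 1 := by
  have hD0 : b ^ 2 - 4 * m ≠ 0 := by omega
  have hC := (hchi (b ^ 2 - 4 * m) A hD0 hA hDA).1
  have hE : Nat.Coprime E A := by
    rw [h1] at hcop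
    exact Nat.isCoprime_iff_coprime.1 (IsCoprime.of_mul_left_left hcop)
  have h3 := chi_E hchi hD hA hDA hDr hz hu hz' pz pu pz' hE (h1 ▸ dvd_mul_right _ _)
    (h2 ▸ dvd_mul_right _ _)
  have h4 : chi (b ^ 2 - 4 * m) A (ip z (u * z')) =
      chi (b ^ 2 - 4 * m) A (z.re * (u * z').re) := hC.per _ _ (ip_mod z (u * z'))
  rw [hC.mul z.re, ← hχ] at h4
  have h5 : chi (b ^ 2 - 4 * m) A z.re * chi (b ^ 2 - 4 * m) A z.re = 1 := by
    rcases hC.val z.re cz with h | h <;> rw [h] <;> norm_num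
  rw [h5, h1, hC.mul, h3, one_mul] at h4
  exact h4

theorem trir_of {g : ℕ → ℤ} {b m : ℤ} {A : ℕ} {η : (Qd (b * A) (m * A ^ 2))ˣ} (hg : Pm g)
    (hD : 4 * m < b ^ 2) (hns : ¬ IsSquare (b ^ 2 - 4 * m)) (hA : 1 ≤ A)
    (hDA : 4 * (b ^ 2 - 4 * m) ∣ (A : ℤ)) (U : Un (b * A) (m * A ^ 2) η) (hchi : S_CHI)
    (hmul : S_MULR (t := b * A) (c := m * A ^ 2) η) : S_TRIR g b m A η := by
  classical
  intro u B hua hu hup
  obtain ⟨C₁, hC₁⟩ := hmul u (B ^ 2) hu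
  have hDa : 4 * (m * (A : ℤ) ^ 2) < (b * A) ^ 2 := U.disc
  refine ⟨(C₁ : ℝ) * (B * B ^ 2) + nm u + 1, ?_, ?_⟩
  · have : (0 : ℝ) ≤ (C₁ : ℝ) * (B * B ^ 2) + nm u := by positivity
    linarith
  intro X hX
  set C : ℝ := (C₁ : ℝ) * (B * B ^ 2) + nm u + 1 with hC
  have hC0 : 0 ≤ (C₁ : ℝ) * (B * B ^ 2) := by positivity
  have hCu : (0 : ℝ) ≤ (nm u : ℝ) := by positivity
  set T : Finset (Σ _ : ℤ, Tr) :=
    ((Icc (-(B : ℤ)) B).erase 0).sigma (fun k => TX g b m A (A * k) (C * X)) with hT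
  have hTcard : T.card = ∑ k ∈ (Icc (-(B : ℤ)) B).erase 0, (TX g b m A (A * k) (C * X)).card :=
    Finset.card_sigma _ _
  have hmem : ∀ p ∈ NPR g A (chi (b ^ 2 - 4 * m) A) η u B X, fd η p.1 ∧ fd η p.2 ∧
      prim p.1 ∧ prim p.2 ∧ dt p.1 (u * p.2) ≠ 0 ∧
      (nm p.1 : ℝ) ≤ X ∧ (nm p.2 : ℝ) ≤ X ∧ Int.gcd p.1.re A = 1 ∧ Int.gcd p.2.re A = 1 ∧
      g (nm p.1) ≠ g (nm (u * p.2)) ∧ |dt p.1 (u * p.2)| ≤ B ∧
      chi (b ^ 2 - 4 * m) A p.1.re = chi (b ^ 2 - 4 * m) A (u * p.2).re := by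
    intro p hp
    unfold NPR at hp
    rw [mem_filter, mem_product] at hp
    obtain ⟨⟨hp1, hp2⟩, hg1, hχ, hB⟩ := hp
    unfold Pool.Agent.H648.Q2.R.UR at hp1 hp2
    rw [mem_filter, U.mem_pball] at hp1 hp2
    obtain ⟨⟨hz, pz, hzX⟩, cz⟩ := hp1
    obtain ⟨⟨hz', pz', hzX'⟩, cz'⟩ := hp2
    refine ⟨hz, hz', pz, pz', ?_, hzX, hzX', cz, cz', hg1, hB, hχ⟩
    intro h0
    apply hg1
    have huz : tp (u * p.2) := Pool.Agent.W78.GR.tp_mul hDa hu hz'.1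
    have hid := Pool.Agent.W78.GR.ip_dt p.1 (u * p.2) hDa hz.1 huz
    rw [h0] at hid
    have hid2 : nm p.1 * nm (u * p.2) = (ip p.1 (u * p.2)).natAbs * (ip p.1 (u * p.2)).natAbs := by
      have h1 : (nm p.1 : ℤ) * nm (u * p.2) = ip p.1 (u * p.2) * ip p.1 (u * p.2) := by
        rw [hid]; ring
      have h2 := congrArg Int.natAbs h1
      rw [Int.natAbs_mul, Int.natAbs_mul, Int.natAbs_natCast, Int.natAbs_natCast] at h2
      exact h2
    have n1 : nm p.1 ≠ 0 := (Pool.Agent.W78.GR.nm_pos hDa hz.1).ne'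
    have n2 : nm (u * p.2) ≠ 0 := (Pool.Agent.W78.GR.nm_pos hDa huz).ne'
    have n3 : (ip p.1 (u * p.2)).natAbs ≠ 0 := by
      intro h3
      rw [h3] at hid2
      exact mul_ne_zero n1 n2 hid2
    have h4 := congrArg g hid2
    rw [hg.mul n1 n2, hg.mul n3 n3, hg.mul_self] at h4
    have h5 := hg.mul_self (nm (u * p.2))
    have h6 := hg.ne_zero (nm (u * p.2))
    exact mul_right_cancel₀ h6 (h4.trans h5.symm)
  have hmaps : ∀ p ∈ NPR g A (chi (b ^ 2 - 4 * m) A) η u B X,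
      psi u p ∈ ((Icc 1 B) ×ˢ (Icc 1 (B ^ 2))) ×ˢ T := by
    intro p hp
    obtain ⟨hz, hz', pz, pz', hdt, hX1, hX2, hc1, hc2, hg1, hB, hχ⟩ := hmem p hp
    have huz : tp (u * p.2) := Pool.Agent.W78.GR.tp_mul hDa hu hz'.1
    obtain ⟨E, G, n, k, d, d', hpsi, hE, hG, hGE, hd, hd', hdn, hdn', hnm, hip, hdte, hgcd, heq,
      hprod⟩ := pair_facts hDa u p.1 p.2 hz.1 hu hz'.1 hdt
    have hE0 : (0 : ℤ) < E := by exact_mod_cast hE
    have hk0 : k ≠ 0 := by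
      rintro rfl
      apply hdt
      rw [hdte, mul_zero]
    have hkB : |k| * E ≤ B := by
      have : |dt p.1 (u * p.2)| = |k| * E := by
        rw [hdte, abs_mul, mul_comm, abs_of_pos hE0]
      rw [← this]; exact hB
    have hk1 : 1 ≤ |k| := Int.one_le_abs hk0
    have hEB : (E : ℤ) ≤ B := by nlinarith
    have hkB' : |k| ≤ B := by
      have : (1 : ℤ) ≤ E := by exact_mod_cast hE
      nlinarith
    have hEB' : E ≤ B := by exact_mod_cast hEB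
    have hpsi' : psi u p = ((E, G), ⟨k, (d, n, d')⟩) := hpsi
    rw [hpsi', mem_product, mem_product, Finset.mem_Icc, Finset.mem_Icc, hT, Finset.mem_sigma,
      Finset.mem_erase, Finset.mem_Icc]
    refine ⟨⟨⟨hE, hEB'⟩, hG, hGE.trans (Nat.pow_le_pow_left hEB' 2)⟩, ⟨hk0, abs_le.1 hkB'⟩, ?_⟩
    have hcop : IsCoprime (ip p.1 (u * p.2)) (A : ℤ) :=
      ip_coprime (fun q _ h => h) u p.1 p.2 hua hc1 hc2
    have hcop1 := hcop
    rw [hip] at hcop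
    have hcop2 : IsCoprime n (A : ℤ) := IsCoprime.of_mul_left_right hcop
    have hcop3 : IsCoprime n ((A : ℤ) * k) :=
      hcop2.mul_right (Int.isCoprime_iff_gcd_eq_one.2 hgcd)
    have hχn : chi (b ^ 2 - 4 * m) A n = 1 :=
      chi_n hchi hD hA hDA hDa hz.1 hu hz'.1 pz hup pz' hc1 hcop1 hχ hip hdte
    unfold TX
    rw [mem_filter, Pool.Agent.W78.GT.mem_tri]
    have hX0 : 0 ≤ X := by linarith
    refine ⟨⟨hd, ?_, hd', ?_, ?_, ?_⟩, Int.isCoprime_iff_gcd_eq_one.1 hcop3, ?_, hχn⟩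
    · have h1 : (d : ℝ) ≤ nm p.1 := by exact_mod_cast hdn
      have h2 : X ≤ C * X := by
        have : (1 : ℝ) ≤ C := by rw [hC]; linarith
        nlinarith
      simp only
      linarith
    · have h1 : (d' : ℝ) ≤ nm (u * p.2) := by exact_mod_cast hdn'
      rw [Pool.Agent.W78.GA.nm_mul] at h1
      push_cast at h1
      have h2 : (nm u : ℝ) * nm p.2 ≤ nm u * X := mul_le_mul_of_nonneg_left hX2 hCu
      have h3 : (nm u : ℝ) * X ≤ C * X := by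
        apply mul_le_mul_of_nonneg_right _ hX0
        rw [hC]; linarith
      simp only
      linarith
    · simp only
      rw [heq]
      unfold Qp
      ring
    · simp only
      have h1 : 0 < (E : ℤ) * (2 * n + b * (A * k)) := by
        have : (E : ℤ) * (2 * n + b * (A * k)) =
          2 * ip p.1 (u * p.2) + (b * A) * dt p.1 (u * p.2) := by
          rw [hip, hdte]; ring
        rw [this]; exact two_ip hDa hz.1 huz
      exact (pos_of_mul_pos_right h1 hE0.le).le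
    · unfold NT
      simp only
      have n1 : nm p.1 ≠ 0 := (Pool.Agent.W78.GR.nm_pos hDa hz.1).ne'
      have n2 : nm (u * p.2) ≠ 0 := (Pool.Agent.W78.GR.nm_pos hDa huz).ne'
      have h4 := congrArg g hprod
      rw [mul_comm (d * d'), hg.sq_mul (by omega) (mul_ne_zero (by omega) (by omega)),
        hg.mul n1 n2] at h4
      rw [h4]
      exact (hg.eq_iff _ _).1 hg1
  have hfib : ∀ y ∈ ((Icc 1 B) ×ˢ (Icc 1 (B ^ 2))) ×ˢ T,
      ((NPR g A (chi (b ^ 2 - 4 * m) A) η u B X).filter (fun p => psi u p = y)).card ≤ C₁ := by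
    rintro ⟨⟨E, G⟩, ⟨k, ⟨d, n, d'⟩⟩⟩ hy
    rw [mem_product, mem_product, Finset.mem_Icc, Finset.mem_Icc, hT, Finset.mem_sigma] at hy
    obtain ⟨⟨⟨hE, hEB⟩, hG, hGB⟩, -, hTS⟩ := hy
    simp only at hE hEB hG hGB hTS
    unfold TX at hTS
    rw [mem_filter, Pool.Agent.W78.GT.mem_tri] at hTS
    obtain ⟨⟨hd, -, hd', -, hq, -⟩, hgcd, -⟩ := hTS
    simp only at hd hd' hq hgcd
    have hB1 : 1 ≤ B := hE.trans hEB
    have hEB2 : E ≤ B ^ 2 := by nlinarith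
    have hgcd' : Int.gcd n k = 1 := by
      rw [← Int.isCoprime_iff_gcd_eq_one] at hgcd ⊢
      exact IsCoprime.of_mul_right_right hgcd
    have hq' : (d : ℤ) * d' = n ^ 2 + (b * A) * n * k + (m * (A : ℤ) ^ 2) * k ^ 2 := by
      rw [hq]
      unfold Qp
      ring
    refine hC₁ E G n k d d' _ hE hEB2 hG hGB hd hd' hgcd' hq' ?_
    intro p hp
    rw [mem_filter] at hp
    obtain ⟨hz, hz', -, -, hdt, -⟩ := hmem p hp.1
    obtain ⟨E₂, G₂, n₂, k₂, d₂, d₂', hpsi, -, -, -, -, -, -, -, hnm, hip, hdte, -, -, -⟩ :=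
      pair_facts hDa u p.1 p.2 hz.1 hu hz'.1 hdt
    have hpsi' : psi u p = ((E₂, G₂), ⟨k₂, (d₂, n₂, d₂')⟩) := hpsi
    have h1 := hpsi'.symm.trans hp.2
    obtain ⟨h2, h3⟩ := Prod.ext_iff.1 h1
    obtain ⟨h4, h5⟩ := Prod.ext_iff.1 h2
    simp only at h3 h4 h5
    obtain ⟨h6, h7⟩ := Sigma.mk.inj_iff.1 h3
    have h8 := eq_of_heq h7
    obtain ⟨h9, h10⟩ := Prod.ext_iff.1 h8
    obtain ⟨h11, h12⟩ := Prod.ext_iff.1 h10
    simp only at h9 h11 h12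
    subst h4 h5 h6 h9 h11
    exact ⟨hz, hz', hnm, hip, hdte⟩
  have hcard := Finset.card_le_mul_card_image_of_maps_to hmaps C₁ hfib
  rw [card_product, card_product, Nat.card_Icc, Nat.card_Icc, Nat.add_sub_cancel,
    Nat.add_sub_cancel, hTcard] at hcard
  have hcardR : ((NPR g A (chi (b ^ 2 - 4 * m) A) η u B X).card : ℝ) ≤ (C₁ : ℝ) * (B * B ^ 2 *
      ∑ k ∈ (Icc (-(B : ℤ)) B).erase 0, ((TX g b m A (A * k) (C * X)).card : ℝ)) := by
    exact_mod_cast hcard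
  refine hcardR.trans ?_
  have hS : (0 : ℝ) ≤ ∑ k ∈ (Icc (-(B : ℤ)) B).erase 0,
      ((TX g b m A (A * k) (C * X)).card : ℝ) := Finset.sum_nonneg (fun _ _ => by positivity)
  rw [← mul_assoc]
  apply mul_le_mul_of_nonneg_right _ hS
  rw [hC]
  linarith

end Pool.Agent.H670.Q648
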